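import Mathlib
import Pool.Agent.H38.PS.Targets

set_option autoImplicit false

open Pool.Agent.H38.RB Pool.Agent.H38.PS

namespace Pool.Agent.H72.PS

lemma factorial_le_pd (S : Finset ℕ) (hS : ∀ q ∈ S, q.Prime) : S.card.factorial ≤ pd S := by
  induction S using Finset.induction_on_max with
  | empty => simp [pd]
  | insert a s ha ih =>
    have hna : a ∉ s := fun h => lt_irrefl _ (ha a h)
    have h1 : s ⊆ (Finset.range a).erase 0 := by
      intro q hq
      rw [Finset.mem_erase, Finset.mem_range]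
      exact ⟨(hS q (Finset.mem_insert_of_mem hq)).ne_zero, ha q hq⟩
    have hapos : 0 < a := (hS a (Finset.mem_insert_self a s)).pos
    have h2 : s.card ≤ a - 1 := by
      have := Finset.card_le_card h1
      rwa [Finset.card_erase_of_mem (Finset.mem_range.mpr hapos), Finset.card_range] at this
    have h3 : s.card + 1 ≤ a := by omega
    have h4 := ih (fun q hq => hS q (Finset.mem_insert_of_mem hq))
    unfold pd at *
    rw [Finset.card_insert_of_notMem hna, Finset.prod_insert hna, Nat.factorial_succ]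
    exact Nat.mul_le_mul h3 h4

lemma fact_le (m q : ℕ) (H : ℕ) (h : ℝ) (hm : m ≠ 0) (hmH : m ≤ H)
    (hH : Real.log H ≤ 2 * h) (hh : 0 < h) : (m.factorization q : ℝ) ≤ 3 * h := by
  by_cases hq : q.Prime
  · have h1 : 2 ^ m.factorization q ≤ m := by
      calc 2 ^ m.factorization q ≤ q ^ m.factorization q :=
            Nat.pow_le_pow_left hq.two_le _
        _ ≤ m := Nat.ordProj_le q hm
    have h2 : (2 : ℝ) ^ m.factorization q ≤ (H : ℝ) := by
      exact_mod_cast h1.trans hmH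
    have h3 := Real.log_le_log (by positivity) h2
    rw [Real.log_pow] at h3
    have h4 : (0.69 : ℝ) < Real.log 2 := by
      have := Real.log_two_gt_d9
      linarith
    have h5 : (0 : ℝ) ≤ (m.factorization q : ℝ) := Nat.cast_nonneg _
    nlinarith
  · rw [Nat.factorization_eq_zero_of_not_prime m hq]
    simp only [Nat.cast_zero]
    linarith

lemma core (G : Finset ℕ) (S : Finset ℕ) (h : ℝ) (hh : 0 < h) (n p H : ℕ)
    (hcls : ∀ a : ℕ, a ≠ 0 → a.primeFactors ⊆ S → Real.log a ≤ 2 * h →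
      ∃ g ∈ G, g ∣ a ∧ Real.log a - h / 4 ≤ Real.log g)
    (hp : p.Prime) (hpS : p ∉ S) (a b c : ℤ) (ha : a ≠ 0) (hb : b ≠ 0) (hc : c ≠ 0)
    (hab : IsCoprime a b) (hac : IsCoprime a c) (hbc : IsCoprime b c) (hsum : a + b + c = 0)
    (hba : b.natAbs ≤ a.natAbs) (hpc : (p : ℤ) ∣ c)
    (hpf : (a * b * c).natAbs.primeFactors = insert p S)
    (hfac : (a * b * c).natAbs.factorization p = n)
    (haH : a.natAbs ≤ H) (hbH : b.natAbs ≤ H) (hcH : c.natAbs ≤ H) (hHa : H ≤ 2 * a.natAbs)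
    (hH1 : h ≤ Real.log H) (hH2 : Real.log H ≤ 2 * h) :
    ∃ (σ : ℤ) (g V W : ℕ), (σ = 1 ∨ σ = -1) ∧ g ∈ G ∧ g ≠ 0 ∧ g.primeFactors ⊆ S ∧ V ≠ 0 ∧
      W ≠ 0 ∧ V.primeFactors ⊆ S ∧ W.primeFactors ⊆ S ∧ W.Coprime g ∧
      (∀ q, V.factorization q ≤ ⌊3 * h⌋₊) ∧ (∀ q, W.factorization q ≤ ⌊3 * h⌋₊) ∧
      (g : ℤ) ∣ (W : ℤ) * (p : ℤ) ^ n - σ * (V : ℤ) ∧ Real.exp (3 * h / 4) / 2 ≤ (g : ℝ) ∧
      (n : ℝ) ≤ 3 * h := by
  have ha' : a.natAbs ≠ 0 := Int.natAbs_ne_zero.mpr ha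
  have hb' : b.natAbs ≠ 0 := Int.natAbs_ne_zero.mpr hb
  have hc' : c.natAbs ≠ 0 := Int.natAbs_ne_zero.mpr hc
  have hpc' : p ∣ c.natAbs := Int.natCast_dvd.mp hpc
  have hcopac : Nat.Coprime a.natAbs c.natAbs := Int.isCoprime_iff_gcd_eq_one.mp hac
  have hcopbc : Nat.Coprime b.natAbs c.natAbs := Int.isCoprime_iff_gcd_eq_one.mp hbc
  have hpa : ¬ p ∣ a.natAbs := fun hd =>
    hp.one_lt.ne' (Nat.dvd_one.mp (hcopac ▸ Nat.dvd_gcd hd hpc'))
  have hpb : ¬ p ∣ b.natAbs := fun hd =>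
    hp.one_lt.ne' (Nat.dvd_one.mp (hcopbc ▸ Nat.dvd_gcd hd hpc'))
  have hprod : (a * b * c).natAbs = a.natAbs * b.natAbs * c.natAbs := by
    rw [Int.natAbs_mul, Int.natAbs_mul]
  rw [hprod] at hpf hfac
  have hne : a.natAbs * b.natAbs * c.natAbs ≠ 0 := by positivity
  -- prime factors
  have hsub : ∀ m : ℕ, m ∣ a.natAbs * b.natAbs * c.natAbs → ¬ p ∣ m → m.primeFactors ⊆ S := by
    intro m hm hpm q hq
    have hq1 := Nat.primeFactors_mono hm hne hq
    rw [hpf, Finset.mem_insert] at hq1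
    rcases hq1 with h1 | h1
    · exact absurd (h1 ▸ Nat.dvd_of_mem_primeFactors hq) hpm
    · exact h1
  have hSa : a.natAbs.primeFactors ⊆ S := hsub _ ⟨b.natAbs * c.natAbs, by ring⟩ hpa
  have hSb : b.natAbs.primeFactors ⊆ S := hsub _ ⟨a.natAbs * c.natAbs, by ring⟩ hpb
  -- the exponent
  have hfc : c.natAbs.factorization p = n := by
    rw [Nat.factorization_mul (mul_ne_zero ha' hb') hc', Nat.factorization_mul ha' hb',
      Finsupp.add_apply, Finsupp.add_apply, Nat.factorization_eq_zero_of_not_dvd hpa,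
      Nat.factorization_eq_zero_of_not_dvd hpb] at hfac
    omega
  -- the divisor g
  have hHpos : 0 < H := by
    rcases Nat.eq_zero_or_pos H with h0 | h0
    · rw [h0] at haH; omega
    · exact h0
  have hlogaH : Real.log (a.natAbs : ℝ) ≤ Real.log H := by
    apply Real.log_le_log
    · exact_mod_cast Nat.pos_of_ne_zero ha'
    · exact_mod_cast haH
  obtain ⟨g, hgG, hga, hglog⟩ := hcls a.natAbs ha' hSa (hlogaH.trans hH2)
  have hg0 : g ≠ 0 := fun h0 => by rw [h0, zero_dvd_iff] at hga; exact ha' hga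
  have hgS : g.primeFactors ⊆ S := (Nat.primeFactors_mono hga ha').trans hSa
  -- W
  set W : ℕ := c.natAbs / p ^ n with hWdef
  have hpn : p ^ n ∣ c.natAbs := by rw [← hfc]; exact Nat.ordProj_dvd _ _
  have hWmul : W * p ^ n = c.natAbs := Nat.div_mul_cancel hpn
  have hW0 : W ≠ 0 := by
    intro h0
    rw [h0, zero_mul] at hWmul
    exact hc' hWmul.symm
  have hWc : W ∣ c.natAbs := ⟨p ^ n, hWmul.symm⟩
  have hpW : ¬ p ∣ W := by
    rw [hWdef, ← hfc]
    exact Nat.not_dvd_ordCompl hp hc'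
  have hSW : W.primeFactors ⊆ S :=
    hsub _ (hWc.trans ⟨a.natAbs * b.natAbs, by ring⟩) hpW
  have hWg : W.Coprime g := Nat.Coprime.coprime_dvd_left hWc
    (Nat.Coprime.coprime_dvd_right hga hcopac.symm)
  have hWH : W ≤ H := (Nat.le_of_dvd (Nat.pos_of_ne_zero hc') hWc).trans hcH
  -- sizes
  have hgsize : Real.exp (3 * h / 4) / 2 ≤ (g : ℝ) := by
    have hgpos : (0 : ℝ) < (g : ℝ) := by exact_mod_cast Nat.pos_of_ne_zero hg0
    have h1 : Real.log H ≤ Real.log 2 + Real.log (a.natAbs : ℝ) := by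
      rw [← Real.log_mul (by norm_num) (by exact_mod_cast ha')]
      apply Real.log_le_log
      · exact_mod_cast hHpos
      · exact_mod_cast hHa
    have h2 : 3 * h / 4 - Real.log 2 ≤ Real.log g := by linarith
    have h3 := Real.exp_le_exp.mpr h2
    rw [Real.exp_sub, Real.exp_log (by norm_num : (0 : ℝ) < 2), Real.exp_log hgpos] at h3
    exact h3
  have hnle : (n : ℝ) ≤ 3 * h := by
    rw [← hfc]
    exact fact_le _ _ H h hc' hcH hH2 hh
  -- the congruence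
  have hdiv : (g : ℤ) ∣ b + c := by
    have h1 : (g : ℤ) ∣ a := Int.natCast_dvd.mpr hga
    have h2 : b + c = -a := by linarith
    rw [h2]
    exact (dvd_neg).mpr h1
  have hcW : (c.natAbs : ℤ) = (W : ℤ) * (p : ℤ) ^ n := by rw [← hWmul]; push_cast; ring
  have hcs : c = c.sign * ((W : ℤ) * (p : ℤ) ^ n) := by
    rw [← hcW]; exact (Int.sign_mul_natAbs c).symm
  have hbs : b = b.sign * (b.natAbs : ℤ) := (Int.sign_mul_natAbs b).symm
  have hsc : c.sign * c.sign = 1 := by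
    rcases lt_or_gt_of_ne hc with h1 | h1
    · rw [Int.sign_eq_neg_one_of_neg h1]; norm_num
    · rw [Int.sign_eq_one_of_pos h1]; norm_num
  refine ⟨-(b.sign * c.sign), g, b.natAbs, W, ?_, hgG, hg0, hgS, hb', hW0, hSb, hSW, hWg,
    fun q => Nat.le_floor (fact_le _ q H h hb' hbH hH2 hh),
    fun q => Nat.le_floor (fact_le _ q H h hW0 hWH hH2 hh), ?_, hgsize, hnle⟩
  · rcases lt_or_gt_of_ne hc with h1 | h1 <;> rcases lt_or_gt_of_ne hb with h2 | h2
    · rw [Int.sign_eq_neg_one_of_neg h1, Int.sign_eq_neg_one_of_neg h2]; norm_num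
    · rw [Int.sign_eq_neg_one_of_neg h1, Int.sign_eq_one_of_pos h2]; norm_num
    · rw [Int.sign_eq_one_of_pos h1, Int.sign_eq_neg_one_of_neg h2]; norm_num
    · rw [Int.sign_eq_one_of_pos h1, Int.sign_eq_one_of_pos h2]; norm_num
  · have h2 : c.sign * c = c.sign * (c.sign * ((W : ℤ) * (p : ℤ) ^ n)) :=
      congrArg (fun z => c.sign * z) hcs
    have h3 : c.sign * (c.sign * ((W : ℤ) * (p : ℤ) ^ n)) = (W : ℤ) * (p : ℤ) ^ n := by
      rw [← mul_assoc, hsc, one_mul]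
    have h4 : c.sign * b = b.sign * c.sign * (b.natAbs : ℤ) := by
      calc c.sign * b = c.sign * (b.sign * (b.natAbs : ℤ)) := congrArg (fun z => c.sign * z) hbs
        _ = b.sign * c.sign * (b.natAbs : ℤ) := by ring
    have h1 : (W : ℤ) * (p : ℤ) ^ n - -(b.sign * c.sign) * (b.natAbs : ℤ) =
        c.sign * (b + c) := by
      rw [mul_add, h4, h2, h3]; ring
    rw [h1]
    exact Dvd.dvd.mul_left hdiv _

/-- the data of one prime -/
lemma data (G : Finset ℕ) (S : Finset ℕ) (X h : ℝ) (hh : 0 < h) (n : ℕ)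
    (hcls : ∀ a : ℕ, a ≠ 0 → a.primeFactors ⊆ S → Real.log a ≤ 2 * h →
      ∃ g ∈ G, g ∣ a ∧ Real.log a - h / 4 ≤ Real.log g)
    (p : ℕ) (hpf : p ∈ fam X S n h) :
    ∃ (σ : ℤ) (g V W : ℕ), (σ = 1 ∨ σ = -1) ∧ g ∈ G ∧ g ≠ 0 ∧ g.primeFactors ⊆ S ∧ V ≠ 0 ∧
      W ≠ 0 ∧ V.primeFactors ⊆ S ∧ W.primeFactors ⊆ S ∧ W.Coprime g ∧
      (∀ q, V.factorization q ≤ ⌊3 * h⌋₊) ∧ (∀ q, W.factorization q ≤ ⌊3 * h⌋₊) ∧
      (g : ℤ) ∣ (W : ℤ) * (p : ℤ) ^ n - σ * (V : ℤ) ∧ Real.exp (3 * h / 4) / 2 ≤ (g : ℝ) ∧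
      (n : ℝ) ≤ 3 * h := by
  obtain ⟨hp, hpS, _, x, ⟨hx0, hxc, hxs⟩, hpfac, hfac, hH1, hH2⟩ := hpf
  have hH0 : (x 0).natAbs ≤ ht x := le_max_left _ _
  have hH1' : (x 1).natAbs ≤ ht x := le_trans (le_max_left _ _) (le_max_right _ _)
  have hH2' : (x 2).natAbs ≤ ht x := le_trans (le_max_right _ _) (le_max_right _ _)
  have hHle : ∀ m : ℕ, (x 0).natAbs ≤ m → (x 1).natAbs ≤ m → (x 2).natAbs ≤ m → ht x ≤ m :=
    fun m h0 h1 h2 => max_le h0 (max_le h1 h2)
  have hdvd : (p : ℤ) ∣ x 0 * x 1 * x 2 := by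
    have h1 : p ∣ pr x := by
      apply Nat.dvd_of_mem_primeFactors
      rw [hpfac]; exact Finset.mem_insert_self _ _
    exact Int.natCast_dvd.mpr h1
  have hpp : Prime (p : ℤ) := Nat.prime_iff_prime_int.mp hp
  have key : ∀ i j k : Fin 3, i ≠ j → i ≠ k → j ≠ k →
      (x i + x j + x k = 0) → (x i * x j * x k = x 0 * x 1 * x 2) →
      (∀ l : Fin 3, l = i ∨ l = j ∨ l = k) → (p : ℤ) ∣ x k → (x j).natAbs ≤ (x i).natAbs →
      ∃ (σ : ℤ) (g V W : ℕ), (σ = 1 ∨ σ = -1) ∧ g ∈ G ∧ g ≠ 0 ∧ g.primeFactors ⊆ S ∧ V ≠ 0 ∧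
      W ≠ 0 ∧ V.primeFactors ⊆ S ∧ W.primeFactors ⊆ S ∧ W.Coprime g ∧
      (∀ q, V.factorization q ≤ ⌊3 * h⌋₊) ∧ (∀ q, W.factorization q ≤ ⌊3 * h⌋₊) ∧
      (g : ℤ) ∣ (W : ℤ) * (p : ℤ) ^ n - σ * (V : ℤ) ∧ Real.exp (3 * h / 4) / 2 ≤ (g : ℝ) ∧
      (n : ℝ) ≤ 3 * h := by
    intro i j k hij hik hjk hs hpr hl hpk hle
    have hall : ∀ l : Fin 3, (x l).natAbs ≤ ht x := by
      intro l
      fin_cases l
      · exact hH0
      · exact hH1'
      · exact hH2'
    have hk : (x k).natAbs ≤ 2 * (x i).natAbs := by omega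
    have hall2 : ∀ l : Fin 3, (x l).natAbs ≤ 2 * (x i).natAbs := by
      intro l
      rcases hl l with rfl | rfl | rfl <;> omega
    have hHi : ht x ≤ 2 * (x i).natAbs := hHle _ (hall2 0) (hall2 1) (hall2 2)
    unfold pr at hpfac hfac
    rw [← hpr] at hpfac hfac
    exact core G S h hh n p (ht x) hcls hp hpS (x i) (x j) (x k) (hx0 i) (hx0 j) (hx0 k)
      (hxc i j hij) (hxc i k hik) (hxc j k hjk) hs hle hpk hpfac hfac (hall i) (hall j) (hall k)
      hHi hH1 hH2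
  have h012 : ∀ l : Fin 3, l = 0 ∨ l = 1 ∨ l = 2 := by decide
  rcases hpp.dvd_or_dvd hdvd with h01 | h2
  · rcases hpp.dvd_or_dvd h01 with h0 | h1
    · rcases le_total (x 1).natAbs (x 2).natAbs with hle | hle
      · exact key 2 1 0 (by decide) (by decide) (by decide) (by linarith) (by ring)
          (by decide) h0 hle
      · exact key 1 2 0 (by decide) (by decide) (by decide) (by linarith) (by ring)
          (by decide) h0 hle
    · rcases le_total (x 0).natAbs (x 2).natAbs with hle | hle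
      · exact key 2 0 1 (by decide) (by decide) (by decide) (by linarith) (by ring)
          (by decide) h1 hle
      · exact key 0 2 1 (by decide) (by decide) (by decide) (by linarith) (by ring)
          (by decide) h1 hle
  · rcases le_total (x 0).natAbs (x 1).natAbs with hle | hle
    · exact key 1 0 2 (by decide) (by decide) (by decide) (by linarith) (by ring)
        (by decide) h2 hle
    · exact key 0 1 2 (by decide) (by decide) (by decide) (by linarith) (by ring)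
        (by decide) h2 hle

/-- LPC: for a given exponent there are few primes. -/
theorem pf_LPC (hCLS : T_CLS) (hPIG : T_PIG) (hNUM : T_NUM) : T_LPC := by
  intro γ hγ
  obtain ⟨A, X₀, hA, hX₀, hnum⟩ := hNUM γ hγ
  refine ⟨A, X₀, hA, hX₀, ?_⟩
  intro X h S n hX hAX hhX hS hpd hn
  have hX2 : 2 ≤ X := hX₀.trans hX
  have hlogX : 0 < Real.log X := Real.log_pos (by linarith)
  have hh : 0 < h := lt_of_lt_of_le (by nlinarith) hAX
  have hfin : (fam X S n h).Finite := by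
    apply (Set.finite_Iic ⌊X⌋₊).subset
    intro p hp
    exact Nat.le_floor hp.2.2.1
  refine ⟨hfin, ?_⟩
  by_contra hcon
  push Not at hcon
  obtain ⟨G, hGcard, hcls⟩ := hCLS S h hS hh
  have hdata := fun p (hp : p ∈ fam X S n h) => data G S X h hh n hcls p hp
  choose! σ g V W hσ hgG hg0 hgS hV hW hVS hWS hWg hVf hWf hdiv hgs hnn using hdata
  set F : Finset ℕ := hfin.toFinset with hF
  have hmemF : ∀ p, p ∈ F ↔ p ∈ fam X S n h := fun p => hfin.mem_toFinset
  have hcardF : F.card = (fam X S n h).ncard := (Set.ncard_eq_toFinset_card _ hfin).symm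
  rw [← hcardF] at hcon
  have hFpos : 0 < F.card := by
    have h1 : (0 : ℝ) < (F.card : ℝ) := lt_trans (Real.rpow_pos_of_pos (by linarith) _) hcon
    exact_mod_cast h1
  obtain ⟨p₁, hp₁⟩ := Finset.card_pos.mp hFpos
  let cl : ℕ → ℤ × ℕ := fun p => (σ p, g p)
  have hne : (F.image cl).Nonempty := ⟨cl p₁, Finset.mem_image_of_mem _ hp₁⟩
  obtain ⟨b, hb, hbmax⟩ := Finset.exists_max_image (F.image cl)
    (fun b => (F.filter (fun p => cl p = b)).card) hne
  set P : Finset ℕ := F.filter (fun p => cl p = b) with hPdef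
  have h1 : F.card ≤ P.card * (F.image cl).card :=
    Finset.card_le_mul_card_image F P.card (fun b' hb' => hbmax b' hb')
  have h2 : (F.image cl).card ≤ 2 * 2 ^ (9 * S.card) := by
    have hsub : F.image cl ⊆ ({1, -1} : Finset ℤ) ×ˢ G := by
      intro c hc
      obtain ⟨p, hp, rfl⟩ := Finset.mem_image.mp hc
      have hp' := (hmemF p).mp hp
      rw [Finset.mem_product]
      refine ⟨?_, hgG p hp'⟩
      rw [Finset.mem_insert, Finset.mem_singleton]
      exact hσ p hp'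
    have h3 := Finset.card_le_card hsub
    rw [Finset.card_product] at h3
    have h4 : ({1, -1} : Finset ℤ).card = 2 := by decide
    rw [h4] at h3
    exact h3.trans (Nat.mul_le_mul_left 2 hGcard)
  obtain ⟨p₀, hp₀F, hp₀⟩ := Finset.mem_image.mp hb
  have hp₀' := (hmemF p₀).mp hp₀F
  have hkX : ((S.card.factorial : ℕ) : ℝ) ≤ X :=
    le_trans (by exact_mod_cast factorial_le_pd S hS) hpd
  have hN : X ^ γ ≤ (P.card : ℝ) * (12 * 2 ^ (9 * S.card)) := by
    have h5 : F.card ≤ P.card * (2 * 2 ^ (9 * S.card)) := h1.trans (Nat.mul_le_mul_left _ h2)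
    have h6 : (F.card : ℝ) ≤ (P.card : ℝ) * (2 * 2 ^ (9 * S.card)) := by exact_mod_cast h5
    have h7 : (P.card : ℝ) * (2 * 2 ^ (9 * S.card)) ≤
        (P.card : ℝ) * (12 * 2 ^ (9 * S.card)) := by
      apply mul_le_mul_of_nonneg_left _ (Nat.cast_nonneg _)
      have : (0 : ℝ) < 2 ^ (9 * S.card) := by positivity
      linarith
    linarith
  obtain ⟨r, hr1, hr2⟩ := hnum X h S.card P.card hX hAX hhX hkX hN
  have hPmem : ∀ p ∈ P, p ∈ fam X S n h ∧ σ p = b.1 ∧ g p = b.2 := by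
    intro p hp
    rw [hPdef, Finset.mem_filter] at hp
    refine ⟨(hmemF p).mp hp.1, ?_, ?_⟩
    · exact congrArg Prod.fst hp.2
    · exact congrArg Prod.snd hp.2
  have hb1 : σ p₀ = b.1 := congrArg Prod.fst hp₀
  have hb2 : g p₀ = b.2 := congrArg Prod.snd hp₀
  have hcount : 2 * pd S * (2 * r * ⌊3 * h⌋₊ + 1) ^ S.card < P.card.choose r := by
    have h5 : ((2 * pd S * (2 * r * ⌊3 * h⌋₊ + 1) ^ S.card : ℕ) : ℝ) <
        ((P.card.choose r : ℕ) : ℝ) := by
      refine lt_of_le_of_lt ?_ hr1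
      push_cast
      apply mul_le_mul_of_nonneg_right _ (by positivity)
      linarith
    exact_mod_cast h5
  have hfinal := hPIG S P V W b.2 n r ⌊3 * h⌋₊ b.1 X hS
    (fun p hp => ⟨(hPmem p hp).1.1, (hPmem p hp).1.2.1, (hPmem p hp).1.2.2.1⟩)
    (hb2 ▸ hg0 p₀ hp₀') (hb2 ▸ hgS p₀ hp₀') hn (hb1 ▸ hσ p₀ hp₀')
    (fun p hp => by
      obtain ⟨hpf, e1, e2⟩ := hPmem p hp
      exact ⟨hV p hpf, hW p hpf, hVS p hpf, hWS p hpf, e2 ▸ hWg p hpf, hVf p hpf, hWf p hpf⟩)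
    (fun p hp => by
      obtain ⟨hpf, e1, e2⟩ := hPmem p hp
      have := hdiv p hpf
      rw [e1, e2] at this
      exact this)
    hcount
  have h8 := hr2 n (hnn p₀ hp₀')
  have h9 := hgs p₀ hp₀'
  rw [hb2] at h9
  linarith

end Pool.Agent.H72.PS
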